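import Pool.Agent.W759.TR.Defs

namespace Pool.Agent.H867.TR

open Pool.Agent.W759.TR

theorem walk_aux {V : Type} (G : SimpleGraph V) (γ : ℕ → V) (N : ℕ)
    (hadj : ∀ j, j < N → G.Adj (γ j) (γ (j + 1)))
    (hnb : ∀ j, j + 2 ≤ N → γ (j + 2) ≠ γ j) :
    ∀ n i j, j = i + n → j ≤ N → ∃ p : G.Walk (γ i) (γ j), p.length = n ∧
      List.IsChain (· ≠ ·) p.edges ∧ ∀ e ∈ p.edges.head?, e = s(γ i, γ (i + 1)) := by
  intro n
  induction n with
  | zero =>
    intro i j hj _
    obtain rfl : j = i := by omega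
    exact ⟨SimpleGraph.Walk.nil, by simp, by simp, by simp⟩
  | succ n ih =>
    intro i j hj hN
    obtain ⟨p, hp, hc, hh⟩ := ih (i + 1) j (by omega) hN
    refine ⟨SimpleGraph.Walk.cons (hadj i (by omega)) p, by simp [hp], ?_, by simp⟩
    rw [SimpleGraph.Walk.edges_cons]
    rw [List.isChain_cons]
    refine ⟨?_, hc⟩
    intro b hb heq
    have hb' := hh b hb
    have hn : n ≠ 0 := by
      rintro rfl
      have : p.edges = [] := by
        apply List.eq_nil_of_length_eq_zero
        rw [SimpleGraph.Walk.length_edges]; exact hp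
      rw [this] at hb
      simp at hb
    have h2 : i + 2 ≤ N := by omega
    rw [hb'] at heq
    have h3 := hnb i h2
    have h4 := (hadj i (by omega)).ne
    rw [Sym2.eq_iff] at heq
    rcases heq with ⟨h, _⟩ | ⟨h, _⟩
    · exact h4 h
    · exact h3 h.symm

theorem t8 : T8 := by
  intro V G hG γ N hadj hnb i j hij hj
  obtain ⟨p, hp, hc, _⟩ := walk_aux G γ N hadj hnb (j - i) i j (by omega) hj
  have hpath : p.IsPath := (hG.IsAcyclic.isPath_iff_isChain p).2 hc
  obtain ⟨q, hq⟩ := hG.connected.exists_walk_length_eq_dist (γ i) (γ j)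
  have hqp : q.IsPath := q.isPath_of_length_eq_dist hq
  have := hG.IsAcyclic.path_unique ⟨p, hpath⟩ ⟨q, hqp⟩
  have h : p = q := congrArg Subtype.val this
  rw [← hq, ← h, hp]

end Pool.Agent.H867.TR
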